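import Pool.Agent.Helper26.Er.Defs

/-!
# E3b: the Liouville step (package for helper26, MP_6b977f_mp)
-/

set_option autoImplicit false
open MeasureTheory Filter Topology
open scoped ContDiff ENNReal

namespace Pool.Agent.Helper46.Er

open Pool.Agent.Helper26.Er
open Complex (I)

noncomputable section

/-- the bump -/
def η : ContDiffBump (0 : ℂ) := ⟨1, 2, one_pos, one_lt_two⟩

/-- the rescaled bump -/
def ζ (R : ℝ) (z : ℂ) : ℝ := η ((R⁻¹ : ℝ) • z)

theorem ζ_smooth (R : ℝ) : ContDiff ℝ ∞ (ζ R) :=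
  η.contDiff.comp (contDiff_const_smul (R⁻¹ : ℝ))

theorem ζ_one {R : ℝ} (hR : 0 < R) {z : ℂ} (hz : ‖z‖ ≤ R) : ζ R z = 1 := by
  apply η.one_of_mem_closedBall
  rw [mem_closedBall_zero_iff, norm_smul, norm_inv, Real.norm_of_nonneg hR.le]
  show R⁻¹ * ‖z‖ ≤ 1
  rw [inv_mul_le_iff₀ hR]; linarith

theorem ζ_zero {R : ℝ} (hR : 0 < R) {z : ℂ} (hz : 2 * R ≤ ‖z‖) : ζ R z = 0 := by
  apply η.zero_of_le_dist
  rw [dist_zero_right, norm_smul, norm_inv, Real.norm_of_nonneg hR.le]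
  show 2 ≤ R⁻¹ * ‖z‖
  rw [le_inv_mul_iff₀ hR]; linarith

theorem ζ_nonneg (R : ℝ) (z : ℂ) : 0 ≤ ζ R z := η.nonneg
theorem ζ_le_one (R : ℝ) (z : ℂ) : ζ R z ≤ 1 := η.le_one

theorem ζ_comp {R : ℝ} (hR : 0 < R) : HasCompactSupport (ζ R) := by
  apply HasCompactSupport.intro (isCompact_closedBall (0 : ℂ) (2 * R))
  intro x hx
  apply ζ_zero hR
  rw [mem_closedBall_zero_iff, not_le] at hx
  exact hx.le

theorem exC : ∃ C : ℝ, 0 ≤ C ∧ ∀ z, ‖fderiv ℝ (η : ℂ → ℝ) z‖ ≤ C := by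
  have h1 : Continuous (fderiv ℝ (η : ℂ → ℝ)) :=
    (η.contDiff (n := 1)).continuous_fderiv (by norm_num)
  obtain ⟨C, hC⟩ := (h1.bounded_above_of_compact_support
    (η.hasCompactSupport.fderiv (𝕜 := ℝ)))
  exact ⟨C, (norm_nonneg _).trans (hC 0), hC⟩

theorem dζ {C R : ℝ} (hC : ∀ z, ‖fderiv ℝ (η : ℂ → ℝ) z‖ ≤ C) (hR : 0 < R) (z : ℂ) :
    ‖fderiv ℝ (ζ R) z‖ ≤ C * R⁻¹ := by
  have h0 : HasFDerivAt (fun z : ℂ => (R⁻¹ : ℝ) • z)
      ((R⁻¹ : ℝ) • ContinuousLinearMap.id ℝ ℂ) z := (hasFDerivAt_id z).const_smul (R⁻¹ : ℝ)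
  have h1 : HasFDerivAt (η : ℂ → ℝ) (fderiv ℝ (η : ℂ → ℝ) ((R⁻¹ : ℝ) • z)) ((R⁻¹ : ℝ) • z) :=
    (((η.contDiff (n := 1)).differentiable (by norm_num)) _).hasFDerivAt
  have h2 := h1.comp z h0
  have h3 : fderiv ℝ (ζ R) z = (fderiv ℝ (η : ℂ → ℝ) ((R⁻¹ : ℝ) • z)).comp
      ((R⁻¹ : ℝ) • ContinuousLinearMap.id ℝ ℂ) := h2.fderiv
  rw [h3]
  refine (ContinuousLinearMap.opNorm_comp_le _ _).trans ?_
  have h4 : ‖(R⁻¹ : ℝ) • ContinuousLinearMap.id ℝ ℂ‖ ≤ R⁻¹ := by
    rw [norm_smul, norm_inv, Real.norm_of_nonneg hR.le]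
    have := ContinuousLinearMap.norm_id_le (𝕜 := ℝ) (E := ℂ)
    have hRi : 0 ≤ R⁻¹ := by positivity
    nlinarith
  have hC0 : 0 ≤ C := (norm_nonneg _).trans (hC 0)
  exact mul_le_mul (hC _) h4 (norm_nonneg _) hC0

theorem g2_nonneg (f : ℂ → ℝ) (z : ℂ) : 0 ≤ g2 f z := by unfold g2; positivity

theorem g2_le {f : ℂ → ℝ} {z : ℂ} {a : ℝ} (h : ‖fderiv ℝ f z‖ ≤ a) : g2 f z ≤ 2 * a ^ 2 := by
  have h1 : |fderiv ℝ f z 1| ≤ a := by
    have := (fderiv ℝ f z).le_opNorm 1
    rw [norm_one, mul_one, Real.norm_eq_abs] at this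
    exact this.trans h
  have h2 : |fderiv ℝ f z I| ≤ a := by
    have := (fderiv ℝ f z).le_opNorm I
    rw [Complex.norm_I, mul_one, Real.norm_eq_abs] at this
    exact this.trans h
  have h3 := sq_le_sq' (neg_le_of_abs_le h1) (le_of_abs_le h1)
  have h4 := sq_le_sq' (neg_le_of_abs_le h2) (le_of_abs_le h2)
  unfold g2; linarith

theorem g2_ζ_in {R : ℝ} (hR : 0 < R) {z : ℂ} (hz : ‖z‖ < R) : g2 (ζ R) z = 0 := by
  have h : fderiv ℝ (ζ R) z = 0 := by
    have h1 : ζ R =ᶠ[𝓝 z] fun _ => (1 : ℝ) := by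
      filter_upwards [(isOpen_lt continuous_norm continuous_const).mem_nhds hz] with y hy
      exact ζ_one hR (le_of_lt hy)
    rw [h1.fderiv_eq]; simp
  simp [g2, h]

theorem g2_ζ_out {R : ℝ} (hR : 0 < R) {z : ℂ} (hz : 2 * R < ‖z‖) : g2 (ζ R) z = 0 := by
  have h : fderiv ℝ (ζ R) z = 0 := by
    have h1 : ζ R =ᶠ[𝓝 z] fun _ => (0 : ℝ) := by
      filter_upwards [(isOpen_lt continuous_const continuous_norm).mem_nhds hz] with y hy
      exact ζ_zero hR (le_of_lt hy)
    rw [h1.fderiv_eq]; simp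
  simp [g2, h]

theorem cont_d {u : ℂ → ℝ} (hu : ContDiff ℝ ∞ u) (v : ℂ) : Continuous fun z => fderiv ℝ u z v :=
  (hu.continuous_fderiv (by simp)).clm_apply continuous_const

theorem g2_cont {u : ℂ → ℝ} (hu : ContDiff ℝ ∞ u) : Continuous (g2 u) :=
  ((cont_d hu 1).pow 2).add ((cont_d hu I).pow 2)

theorem GG_nonneg (u w : ℂ → ℝ) (z : ℂ) : 0 ≤ GG u w z := by unfold GG; positivity

theorem GG_meas {u w : ℂ → ℝ} (hu : ContDiff ℝ ∞ u) (hw : ContDiff ℝ ∞ w) :
    Measurable (GG u w) := by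
  have c1 : Continuous fun z => (u z * fderiv ℝ w z 1 - w z * fderiv ℝ u z 1) ^ 2 +
      (u z * fderiv ℝ w z I - w z * fderiv ℝ u z I) ^ 2 :=
    (((hu.continuous.mul (cont_d hw 1)).sub (hw.continuous.mul (cont_d hu 1))).pow 2).add
      (((hu.continuous.mul (cont_d hw I)).sub (hw.continuous.mul (cont_d hu I))).pow 2)
  exact c1.measurable.div ((hu.continuous.pow 2).measurable)

theorem F_le {u w : ℂ → ℝ} {M : ℝ} (bdu : ∀ z, ‖fderiv ℝ u z‖ ≤ M)
    (bdw : ∀ z, ‖fderiv ℝ w z‖ ≤ M) (h : ∀ z, |w z| ≤ |u z|) (z v : ℂ) (hv : ‖v‖ = 1) :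
    (u z * fderiv ℝ w z v - w z * fderiv ℝ u z v) ^ 2 ≤ 4 * M ^ 2 * u z ^ 2 := by
  have h1 : |fderiv ℝ w z v| ≤ M := by
    have := (fderiv ℝ w z).le_opNorm v
    rw [hv, mul_one, Real.norm_eq_abs] at this
    exact this.trans (bdw z)
  have h2 : |fderiv ℝ u z v| ≤ M := by
    have := (fderiv ℝ u z).le_opNorm v
    rw [hv, mul_one, Real.norm_eq_abs] at this
    exact this.trans (bdu z)
  have h3 : |u z * fderiv ℝ w z v - w z * fderiv ℝ u z v| ≤ 2 * M * |u z| := by
    refine (abs_sub _ _).trans ?_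
    rw [abs_mul, abs_mul]
    have a1 : |u z| * |fderiv ℝ w z v| ≤ |u z| * M := mul_le_mul_of_nonneg_left h1 (abs_nonneg _)
    have a2 : |w z| * |fderiv ℝ u z v| ≤ |u z| * M :=
      mul_le_mul (h z) h2 (abs_nonneg _) (abs_nonneg _)
    linarith
  have h4 := sq_le_sq' (neg_le_of_abs_le h3) (le_of_abs_le h3)
  calc _ ≤ (2 * M * |u z|) ^ 2 := h4
    _ = 4 * M ^ 2 * u z ^ 2 := by rw [mul_pow, sq_abs]; ring

theorem GG_le {u w : ℂ → ℝ} {M : ℝ} (hM : 0 ≤ M) (bdu : ∀ z, ‖fderiv ℝ u z‖ ≤ M)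
    (bdw : ∀ z, ‖fderiv ℝ w z‖ ≤ M) (h : ∀ z, |w z| ≤ |u z|) (z : ℂ) :
    GG u w z ≤ 8 * M ^ 2 := by
  unfold GG
  have h1 := F_le bdu bdw h z 1 norm_one
  have h2 := F_le bdu bdw h z I Complex.norm_I
  apply div_le_of_le_mul₀ (by positivity) (by positivity)
  linarith

/-- a measurable function, bounded and zero outside a ball, is integrable -/
theorem int_of {f : ℂ → ℝ} (hf : Measurable f) {a r : ℝ} (h1 : ∀ z, |f z| ≤ a)
    (h2 : ∀ z, r < ‖z‖ → f z = 0) : Integrable f := by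
  have h3 : f = (Metric.closedBall (0 : ℂ) r).indicator f := by
    ext z
    by_cases hz : z ∈ Metric.closedBall (0 : ℂ) r
    · rw [Set.indicator_of_mem hz]
    · rw [Set.indicator_of_notMem hz]
      apply h2
      rwa [mem_closedBall_zero_iff, not_le] at hz
  rw [h3, integrable_indicator_iff measurableSet_closedBall]
  apply Measure.integrableOn_of_bounded (M := a)
  · exact (isCompact_closedBall _ _).measure_lt_top.ne
  · exact hf.aestronglyMeasurable
  · exact ae_of_all _ (fun z => by rw [Real.norm_eq_abs]; exact h1 z)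

theorem vol_ball {r : ℝ} (hr : 0 ≤ r) :
    (volume : Measure ℂ).real (Metric.closedBall (0 : ℂ) r) = Real.pi * r ^ 2 := by
  rw [Measure.real, Complex.volume_closedBall, ENNReal.toReal_mul, ENNReal.toReal_pow,
    ENNReal.toReal_ofReal hr]
  simp; ring

theorem int_wg {w : ℂ → ℝ} {M C R : ℝ} (hw : Continuous w) (hM : ∀ z, |w z| ≤ M)
    (hC : ∀ z, ‖fderiv ℝ (η : ℂ → ℝ) z‖ ≤ C) (hR : 0 < R) :
    Integrable (fun z => w z ^ 2 * g2 (ζ R) z) ∧
      ∫ z, w z ^ 2 * g2 (ζ R) z ≤ 8 * Real.pi * C ^ 2 * M ^ 2 := by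
  have hb : ∀ z, w z ^ 2 * g2 (ζ R) z ≤ M ^ 2 * (2 * (C * R⁻¹) ^ 2) := by
    intro z
    have h1 := sq_le_sq' (neg_le_of_abs_le (hM z)) (le_of_abs_le (hM z))
    exact mul_le_mul h1 (g2_le (dζ hC hR z)) (g2_nonneg _ _) (by positivity)
  have hn : ∀ z, 0 ≤ w z ^ 2 * g2 (ζ R) z := fun z => mul_nonneg (sq_nonneg _) (g2_nonneg _ _)
  have ho : ∀ z : ℂ, 2 * R < ‖z‖ → w z ^ 2 * g2 (ζ R) z = 0 := fun z hz => by
    rw [g2_ζ_out hR hz, mul_zero]
  have hi : Integrable (fun z => w z ^ 2 * g2 (ζ R) z) :=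
    int_of ((hw.pow 2).mul (g2_cont (ζ_smooth R))).measurable
      (a := M ^ 2 * (2 * (C * R⁻¹) ^ 2)) (r := 2 * R)
      (fun z => by rw [abs_of_nonneg (hn z)]; exact hb z) ho
  refine ⟨hi, ?_⟩
  have h5 : ∫ z, w z ^ 2 * g2 (ζ R) z ≤
      ∫ z, (Metric.closedBall (0 : ℂ) (2 * R)).indicator
        (fun _ => M ^ 2 * (2 * (C * R⁻¹) ^ 2)) z := by
    apply integral_mono hi
    · rw [integrable_indicator_iff measurableSet_closedBall]
      exact integrableOn_const (isCompact_closedBall _ _).measure_lt_top.ne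
    · intro z
      show w z ^ 2 * g2 (ζ R) z ≤ _
      by_cases hz : z ∈ Metric.closedBall (0 : ℂ) (2 * R)
      · rw [Set.indicator_of_mem hz]; exact hb z
      · rw [Set.indicator_of_notMem hz]
        rw [ho z]
        rwa [mem_closedBall_zero_iff, not_le] at hz
  refine h5.trans (le_of_eq ?_)
  rw [integral_indicator measurableSet_closedBall, setIntegral_const, vol_ball (by linarith)]
  rw [smul_eq_mul]
  field_simp
  ring

theorem liouville {u w : ℂ → ℝ} (hu : ContDiff ℝ ∞ u) (hw : ContDiff ℝ ∞ w) {M : ℝ}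
    (bu : ∀ z, |u z| ≤ M) (bdu : ∀ z, ‖fderiv ℝ u z‖ ≤ M) (bdw : ∀ z, ‖fderiv ℝ w z‖ ≤ M)
    (h : ∀ z, |w z| ≤ |u z|)
    (hcac : ∀ ζ : ℂ → ℝ, ContDiff ℝ ∞ ζ → HasCompactSupport ζ →
      ∫ z, ζ z ^ 2 * GG u w z ≤ 2 * ∫ z, |ζ z| * |w z| * √(GG u w z) * √(g2 ζ z)) :
    ∀ z v, u z * fderiv ℝ w z v = w z * fderiv ℝ u z v := by
  have hM : 0 ≤ M := (abs_nonneg _).trans (bu 0)
  have bw : ∀ z, |w z| ≤ M := fun z => (h z).trans (bu z)
  obtain ⟨C, hC0, hC⟩ := exC
  set K : ℝ := 8 * Real.pi * C ^ 2 * M ^ 2 with hK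
  have hK0 : 0 ≤ K := by positivity
  have gm := GG_meas hu hw
  have gb := GG_le hM bdu bdw h
  have gn := GG_nonneg u w
  -- integrability of ζ² GG
  have iA : ∀ R : ℝ, 0 < R → Integrable (fun z => ζ R z ^ 2 * GG u w z) := by
    intro R hR
    refine int_of (a := 8 * M ^ 2) (r := 2 * R)
      (((ζ_smooth R).continuous.pow 2).measurable.mul gm) ?_ ?_
    · intro z
      rw [abs_of_nonneg (mul_nonneg (sq_nonneg _) (gn z))]
      have := ζ_nonneg R z
      have := ζ_le_one R z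
      have h1 : ζ R z ^ 2 ≤ 1 := by nlinarith
      calc ζ R z ^ 2 * GG u w z ≤ 1 * GG u w z := mul_le_mul_of_nonneg_right h1 (gn z)
        _ ≤ _ := by rw [one_mul]; exact gb z
    · intro z hz
      rw [ζ_zero hR hz.le]; ring
  -- the pointwise inequality
  have pw : ∀ (R l : ℝ), 0 < l → ∀ z, 2 * (|ζ R z| * |w z| * √(GG u w z) * √(g2 (ζ R) z)) ≤
      l * (ζ R z ^ 2 * GG u w z) + l⁻¹ * (w z ^ 2 * g2 (ζ R) z) := by
    intro R l hl z
    have s1 := Real.sq_sqrt (gn z)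
    have s2 := Real.sq_sqrt (g2_nonneg (ζ R) z)
    have t1 : ζ R z ^ 2 * GG u w z = (|ζ R z| * √(GG u w z)) ^ 2 := by
      rw [mul_pow, sq_abs, s1]
    have t2 : w z ^ 2 * g2 (ζ R) z = (|w z| * √(g2 (ζ R) z)) ^ 2 := by
      rw [mul_pow, sq_abs, s2]
    rw [t1, t2]
    set a := |ζ R z| * √(GG u w z)
    set b := |w z| * √(g2 (ζ R) z)
    have e1 : |ζ R z| * |w z| * √(GG u w z) * √(g2 (ζ R) z) = a * b := by
      simp only [a, b]; ring
    rw [e1]
    have e2 : l * a ^ 2 + l⁻¹ * b ^ 2 - 2 * (a * b) = l⁻¹ * (l * a - b) ^ 2 := by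
      field_simp; ring
    have e3 : 0 ≤ l⁻¹ * (l * a - b) ^ 2 := by positivity
    linarith
  have nn : ∀ (R : ℝ) (z : ℂ), 0 ≤ |ζ R z| * |w z| * √(GG u w z) * √(g2 (ζ R) z) := by
    intro R z; positivity
  -- first bound
  have A1 : ∀ R : ℝ, 0 < R → ∫ z, ζ R z ^ 2 * GG u w z ≤ 4 * K := by
    intro R hR
    have h1 := hcac (ζ R) (ζ_smooth R) (ζ_comp hR)
    have ⟨i2, b2⟩ := int_wg hw.continuous bw hC hR
    have h3 : ∫ z, 2 * (|ζ R z| * |w z| * √(GG u w z) * √(g2 (ζ R) z)) ≤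
        ∫ z, ((1 / 2 : ℝ) * (ζ R z ^ 2 * GG u w z) +
          (1 / 2 : ℝ)⁻¹ * (w z ^ 2 * g2 (ζ R) z)) := by
      apply integral_mono_of_nonneg
      · exact ae_of_all _ (fun z => mul_nonneg zero_le_two (nn R z))
      · exact ((iA R hR).const_mul _).add (i2.const_mul _)
      · exact ae_of_all _ (fun z => pw R (1 / 2) (by norm_num) z)
    rw [integral_const_mul, integral_add ((iA R hR).const_mul _) (i2.const_mul _),
      integral_const_mul, integral_const_mul] at h3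
    linarith
  -- ball bound
  have iB : ∀ R : ℝ, IntegrableOn (GG u w) (Metric.closedBall (0 : ℂ) R) := by
    intro R
    exact Measure.integrableOn_of_bounded (M := 8 * M ^ 2)
      (isCompact_closedBall _ _).measure_lt_top.ne gm.aestronglyMeasurable
      (ae_of_all _ (fun z => by
        rw [Real.norm_eq_abs, abs_of_nonneg (gn z)]; exact gb z))
  have B1 : ∀ R : ℝ, 0 < R → ∫ z in Metric.closedBall (0 : ℂ) R, GG u w z ≤
      ∫ z, ζ R z ^ 2 * GG u w z := by
    intro R hR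
    rw [← integral_indicator measurableSet_closedBall]
    apply integral_mono_of_nonneg
    · exact ae_of_all _ (fun z => Set.indicator_nonneg (fun z _ => gn z) z)
    · exact iA R hR
    · refine ae_of_all _ (fun z => ?_)
      show (Metric.closedBall (0 : ℂ) R).indicator (GG u w) z ≤ ζ R z ^ 2 * GG u w z
      by_cases hz : z ∈ Metric.closedBall (0 : ℂ) R
      · rw [Set.indicator_of_mem hz, ζ_one hR (by rwa [mem_closedBall_zero_iff] at hz)]
        simp
      · rw [Set.indicator_of_notMem hz]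
        exact mul_nonneg (sq_nonneg _) (gn z)
  have hr : Tendsto (fun n : ℕ => ((n : ℝ) + 1)) atTop atTop :=
    tendsto_atTop_add_const_right _ _ tendsto_natCast_atTop_atTop
  have cov : AECover (volume : Measure ℂ) atTop
      (fun n : ℕ => Metric.closedBall (0 : ℂ) ((n : ℝ) + 1)) := aecover_closedBall hr
  have iG : Integrable (GG u w) := by
    apply cov.integrable_of_integral_bounded_of_nonneg_ae (4 * K) (fun n => iB _)
      (ae_of_all _ gn)
    exact Eventually.of_forall (fun n => (B1 _ (by positivity)).trans (A1 _ (by positivity)))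
  have lim := cov.integral_tendsto_of_countably_generated iG
  -- second bound
  set T : ℝ := ∫ z, GG u w z with hT
  have A2 : ∀ r l : ℝ, 0 < r → 0 < l → ∫ z in Metric.closedBall (0 : ℂ) r, GG u w z ≤
      l * (T - ∫ z in Metric.closedBall (0 : ℂ) r, GG u w z) + l⁻¹ * K := by
    intro r l hr0 hl
    have hR : 0 < 2 * r := by linarith
    have m1 : ∫ z in Metric.closedBall (0 : ℂ) r, GG u w z ≤
        ∫ z in Metric.closedBall (0 : ℂ) (2 * r), GG u w z := by
      apply setIntegral_mono_set (iB _)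
      · exact ae_of_all _ gn
      · exact (Metric.closedBall_subset_closedBall (by linarith)).eventuallyLE
    have h1 := hcac (ζ (2 * r)) (ζ_smooth (2 * r)) (ζ_comp hR)
    have ⟨i2, b2⟩ := int_wg hw.continuous bw hC hR
    have iC : Integrable ((Metric.closedBall (0 : ℂ) r)ᶜ.indicator (GG u w)) :=
      iG.indicator measurableSet_closedBall.compl
    have h3 : ∫ z, 2 * (|ζ (2 * r) z| * |w z| * √(GG u w z) * √(g2 (ζ (2 * r)) z)) ≤
        ∫ z, (l * ((Metric.closedBall (0 : ℂ) r)ᶜ.indicator (GG u w) z) +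
          l⁻¹ * (w z ^ 2 * g2 (ζ (2 * r)) z)) := by
      apply integral_mono_of_nonneg
      · exact ae_of_all _ (fun z => mul_nonneg zero_le_two (nn _ z))
      · exact (iC.const_mul _).add (i2.const_mul _)
      · refine ae_of_all _ (fun z => ?_)
        show 2 * (|ζ (2 * r) z| * |w z| * √(GG u w z) * √(g2 (ζ (2 * r)) z)) ≤
          l * ((Metric.closedBall (0 : ℂ) r)ᶜ.indicator (GG u w) z) +
          l⁻¹ * (w z ^ 2 * g2 (ζ (2 * r)) z)
        by_cases hz : z ∈ Metric.closedBall (0 : ℂ) r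
        · have hz' : z ∉ (Metric.closedBall (0 : ℂ) r)ᶜ := fun h => h hz
          rw [Set.indicator_of_notMem hz', g2_ζ_in hR]
          · simp
          · rw [mem_closedBall_zero_iff] at hz; linarith
        · rw [Set.indicator_of_mem (show z ∈ (Metric.closedBall (0 : ℂ) r)ᶜ from hz)]
          refine (pw (2 * r) l hl z).trans ?_
          have q1 := ζ_nonneg (2 * r) z
          have q2 := ζ_le_one (2 * r) z
          have q3 : ζ (2 * r) z ^ 2 ≤ 1 := by nlinarith
          have q4 : ζ (2 * r) z ^ 2 * GG u w z ≤ GG u w z :=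
            mul_le_of_le_one_left (gn z) q3
          have q5 := mul_le_mul_of_nonneg_left q4 hl.le
          linarith
    rw [integral_const_mul, integral_add (iC.const_mul _) (i2.const_mul _),
      integral_const_mul, integral_const_mul,
      integral_indicator measurableSet_closedBall.compl,
      setIntegral_compl measurableSet_closedBall iG, ← hT] at h3
    have b3 := mul_le_mul_of_nonneg_left b2 (inv_nonneg.2 hl.le)
    have b4 := B1 _ hR
    linarith
  have hT0 : 0 ≤ T := integral_nonneg gn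
  have A3 : ∀ l : ℝ, 0 < l → T ≤ l⁻¹ * K := by
    intro l hl
    have h1 : Tendsto (fun n : ℕ => l * (T - ∫ z in Metric.closedBall (0 : ℂ) ((n : ℝ) + 1),
        GG u w z) + l⁻¹ * K) atTop (𝓝 (l * (T - T) + l⁻¹ * K)) :=
      ((tendsto_const_nhds.sub lim).const_mul l).add_const _
    have h2 := le_of_tendsto_of_tendsto' lim h1 (fun n => A2 _ l (by positivity) hl)
    rw [sub_self, mul_zero, zero_add] at h2
    exact h2
  have hT1 : T = 0 := by
    by_contra hne
    have hpos : 0 < T := lt_of_le_of_ne hT0 (Ne.symm hne)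
    have h1 := A3 ((K + 1) / T) (by positivity)
    rw [inv_div] at h1
    have h2 : T / (K + 1) * K < T := by
      rw [div_mul_eq_mul_div, div_lt_iff₀ (by positivity)]
      nlinarith
    linarith
  have z0 : GG u w =ᵐ[volume] 0 := (integral_eq_zero_iff_of_nonneg gn iG).1 hT1
  have key : ∀ v : ℂ, (v = 1 ∨ v = I) → ∀ z, u z * fderiv ℝ w z v = w z * fderiv ℝ u z v := by
    intro v hv
    have c1 : Continuous fun z => u z * fderiv ℝ w z v := hu.continuous.mul (cont_d hw v)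
    have c2 : Continuous fun z => w z * fderiv ℝ u z v := hw.continuous.mul (cont_d hu v)
    have h1 : (fun z => u z * fderiv ℝ w z v) =ᵐ[volume] fun z => w z * fderiv ℝ u z v := by
      filter_upwards [z0] with z hz
      by_cases hu0 : u z = 0
      · have hw0 : w z = 0 := by
          have := h z
          rw [hu0, abs_zero] at this
          exact abs_eq_zero.1 (le_antisymm this (abs_nonneg _))
        rw [hu0, hw0]; ring
      · have hz' : GG u w z = 0 := hz
        unfold GG at hz'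
        rw [div_eq_zero_iff] at hz'
        rcases hz' with hz' | hz'
        · rcases hv with rfl | rfl
          · have := sq_nonneg (u z * fderiv ℝ w z I - w z * fderiv ℝ u z I)
            have h5 : (u z * fderiv ℝ w z 1 - w z * fderiv ℝ u z 1) ^ 2 = 0 := by
              have := sq_nonneg (u z * fderiv ℝ w z 1 - w z * fderiv ℝ u z 1)
              linarith
            exact sub_eq_zero.1 (pow_eq_zero_iff (two_ne_zero) |>.1 h5)
          · have := sq_nonneg (u z * fderiv ℝ w z 1 - w z * fderiv ℝ u z 1)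
            have h5 : (u z * fderiv ℝ w z I - w z * fderiv ℝ u z I) ^ 2 = 0 := by
              have := sq_nonneg (u z * fderiv ℝ w z I - w z * fderiv ℝ u z I)
              linarith
            exact sub_eq_zero.1 (pow_eq_zero_iff (two_ne_zero) |>.1 h5)
        · exact absurd (pow_eq_zero_iff (two_ne_zero) |>.1 hz') hu0
    have h2 := (c1.ae_eq_iff_eq volume c2).1 h1
    exact fun z => congrFun h2 z
  intro z v
  have e : v = v.re • (1 : ℂ) + v.im • I := by
    apply Complex.ext <;> simp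
  rw [e, map_add, map_add, map_smul, map_smul, map_smul, map_smul, smul_eq_mul, smul_eq_mul,
    smul_eq_mul, smul_eq_mul]
  have k1 := key 1 (Or.inl rfl) z
  have k2 := key I (Or.inr rfl) z
  linear_combination v.re * k1 + v.im * k2

end

end Pool.Agent.Helper46.Er
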